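import Pool.Agent.H70IM.Apex

namespace Pool.Agent.H83W.Kept.ApexLinearForests

open Pool.Agent.H70IM

/-- If the finite graph `H` has a vertex whose deletion leaves a linear forest, then every
`K_{1,t}`-free graph `G` without `H` as an induced minor has tree-independence number at most
`20 |V(H)|^2 t`. -/
theorem result {W : Type} [Fintype W] (H : SimpleGraph W) (hH : ApexLinearForest H)
    (t : ℕ) (ht : 1 ≤ t) {V : Type} [Fintype V] (G : SimpleGraph V)
    (hG : IsEmpty (completeBipartiteGraph (Fin 1) (Fin t) ↪g G))
    (hGH : ¬ IsInducedMinor H G) :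
    treeIndepNum G ≤ 20 * Fintype.card W ^ 2 * t :=
  treeIndepNum_le_of_apexLinearForest hH ht hG hGH

end Pool.Agent.H83W.Kept.ApexLinearForests
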