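import Pool.Agent.H83W.Final2

namespace Pool.Agent.H83W.Kept.ApexPathsOrCycleSeparators

open Pool.Agent.H70IM Pool.Agent.H83W

/-- If the finite graph `H` has a vertex `h` such that `H - h` is a linear forest or a cycle, and
`G` is a finite graph without `H` as an induced minor, then for every nonnegative vertex
weighting `μ` there is a set `S` of at most `24 |V(H)|^2` vertices such that every connected set
of vertices `C` disjoint from the closed neighbourhood of `S` has at most half of the total
weight. -/
theorem result {W : Type} [Fintype W] (H : SimpleGraph W) (hH : ApexPathsOrCycle H)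
    {V : Type} [Fintype V] (G : SimpleGraph V) (hGH : ¬ IsInducedMinor H G)
    (μ : V → ℝ) (hμ : ∀ v, 0 ≤ μ v) :
    ∃ S : Finset V, S.card ≤ 24 * Fintype.card W ^ 2 ∧ ∀ C : Finset V,
      (∀ v ∈ C, v ∉ S ∧ ∀ s ∈ S, ¬ G.Adj s v) → (G.induce (C : Set V)).Connected →
        2 * ∑ v ∈ C, μ v ≤ ∑ v, μ v :=
  dominated_separator_of_no_haven
    (fun _ hβ => hGH (inducedMinor_of_haven_apexPathsOrCycle hH hβ)) μ hμ

end Pool.Agent.H83W.Kept.ApexPathsOrCycleSeparators
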