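import Pool.Agent.H83W.Final

namespace Pool.Agent.H83W.Kept.Wheels

open Pool.Agent.H70IM Pool.Agent.H83W

/-- If `W_k` is the wheel with `k ≥ 3` spokes, then every `K_{1,t}`-free graph `G` without `W_k`
as an induced minor has tree-independence number at most `5 (k^2 + 7 k) t`. -/
theorem result (k : ℕ) (hk : 3 ≤ k) (t : ℕ) (ht : 1 ≤ t) {V : Type} [Fintype V]
    (G : SimpleGraph V) (hG : IsEmpty (completeBipartiteGraph (Fin 1) (Fin t) ↪g G))
    (hGH : ¬ IsInducedMinor (wheel k) G) :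
    treeIndepNum G ≤ 5 * (k ^ 2 + 7 * k) * t :=
  treeIndepNum_le_of_wheel hk ht hG hGH

end Pool.Agent.H83W.Kept.Wheels
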